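import Pool.Agent.H55.BQ.Targets

/-!
# Row TRE: the labelled tree exists (the free product of `n` copies of the group of order two)
-/

set_option autoImplicit false

open Finset Pool.Agent.H55.BP Pool.Agent.H55.BQ

namespace Pool.Agent.H96.BPQ

variable {n : ℕ}

/-- Left multiplication by the generator `i` on lists. -/
def lm (i : Fin n) : List (Fin n) → List (Fin n)
  | [] => [i]
  | a :: l => if a = i then l else i :: a :: l

theorem lm_cons (i a : Fin n) (l : List (Fin n)) :
    lm i (a :: l) = if a = i then l else i :: a :: l := rfl

theorem lm_self (a : Fin n) (l : List (Fin n)) : lm a (a :: l) = l := by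
  rw [lm_cons, if_pos rfl]

theorem lm_ne {i a : Fin n} (h : a ≠ i) (l : List (Fin n)) : lm i (a :: l) = i :: a :: l := by
  rw [lm_cons, if_neg h]

/-- Reduced words. -/
def Red (l : List (Fin n)) : Prop := l.IsChain (fun a b => a ≠ b)

theorem red_nil : Red ([] : List (Fin n)) := List.isChain_nil

theorem red_tail {a : Fin n} {l : List (Fin n)} (h : Red (a :: l)) : Red l := List.IsChain.tail h

theorem red_reverse {l : List (Fin n)} (h : Red l) : Red l.reverse := by
  unfold Red at *
  rw [List.isChain_reverse]
  exact h.imp fun a b hab => hab.symm

theorem red_lm (i : Fin n) {l : List (Fin n)} (h : Red l) : Red (lm i l) := by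
  cases l with
  | nil => exact List.isChain_singleton i
  | cons a l =>
    rw [lm_cons]
    split_ifs with hai
    · exact red_tail h
    · refine List.isChain_cons.2 ⟨?_, h⟩
      intro y hy
      simp only [List.head?_cons, Option.mem_def, Option.some.injEq] at hy
      subst hy
      exact fun e => hai e.symm

theorem head_ne {a : Fin n} {l : List (Fin n)} (h : Red (a :: l)) : l.head? ≠ some a := by
  intro e
  exact (List.isChain_cons.1 h).1 a e rfl

theorem lm_of_ne (i : Fin n) {l : List (Fin n)} (h : l.head? ≠ some i) : lm i l = i :: l := by
  cases l with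
  | nil => rfl
  | cons a l =>
    exact lm_ne (fun e => h (by rw [e]; rfl)) l

theorem lm_lm (i : Fin n) {l : List (Fin n)} (h : Red l) : lm i (lm i l) = l := by
  by_cases hi : l.head? = some i
  · cases l with
    | nil => simp at hi
    | cons a l =>
      have ha : a = i := by simpa using hi
      subst ha
      rw [lm_self, lm_of_ne a (head_ne h)]
  · rw [lm_of_ne i hi, lm_self]

/-- Right multiplication. -/
def rm (j : Fin n) (l : List (Fin n)) : List (Fin n) := (lm j l.reverse).reverse

theorem red_rm (j : Fin n) {l : List (Fin n)} (h : Red l) : Red (rm j l) :=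
  red_reverse (red_lm j (red_reverse h))

theorem rm_rm (j : Fin n) {l : List (Fin n)} (h : Red l) : rm j (rm j l) = l := by
  unfold rm
  rw [List.reverse_reverse, lm_lm j (red_reverse h), List.reverse_reverse]

theorem rm_nil (j : Fin n) : rm j ([] : List (Fin n)) = [j] := rfl

theorem rm_concat (j b : Fin n) (l : List (Fin n)) :
    rm j (l ++ [b]) = if b = j then l else l ++ [b, j] := by
  unfold rm
  rw [List.reverse_append, List.reverse_singleton, List.singleton_append, lm_cons]
  split_ifs with h
  · rw [List.reverse_reverse]
  · simp

/-- On words of length at least two the right multiplication does not see the first letter. -/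
theorem rm_cons (j a b : Fin n) (l : List (Fin n)) : rm j (a :: (l ++ [b])) = a :: rm j (l ++ [b]) := by
  rw [← List.cons_append, rm_concat, rm_concat]
  split_ifs <;> rfl

theorem lm_rm (i j : Fin n) {l : List (Fin n)} (h : Red l) : lm i (rm j l) = rm j (lm i l) := by
  rcases List.eq_nil_or_concat l with rfl | ⟨m, b, rfl⟩
  · rw [rm_nil]
    have e : lm i ([] : List (Fin n)) = [i] := rfl
    rw [e]
    have e2 : rm j ([i] : List (Fin n)) = if i = j then [] else [i, j] := rm_concat j i []
    rw [e2]
    by_cases hij : i = j
    · subst hij
      rw [lm_self, if_pos rfl]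
    · rw [if_neg hij, lm_ne (fun e : j = i => hij e.symm)]
  · rw [List.concat_eq_append] at *
    cases m with
    | nil =>
      -- the word `[b]`
      rw [List.nil_append]
      have e2 : ∀ x : Fin n, rm j ([x] : List (Fin n)) = if x = j then [] else [x, j] :=
        fun x => rm_concat j x []
      rw [e2]
      by_cases hb : b = i
      · subst hb
        rw [lm_self, rm_nil]
        by_cases hj : b = j
        · subst hj
          rw [if_pos rfl]
          rfl
        · rw [if_neg hj, lm_self]
      · rw [lm_ne hb]
        have e4 : rm j ([i, b] : List (Fin n)) = if b = j then [i] else [i, b, j] :=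
          rm_concat j b [i]
        rw [e4]
        by_cases hj : b = j
        · rw [if_pos hj, if_pos hj]
          rfl
        · rw [if_neg hj, if_neg hj, lm_ne hb]
    | cons a m =>
      rw [List.cons_append, rm_cons]
      by_cases ha : a = i
      · subst ha
        rw [lm_self, lm_self]
      · rw [lm_ne ha, lm_ne ha, ← List.cons_append, rm_cons, List.cons_append, rm_cons]

/-- The action of a word. -/
def act (w x : List (Fin n)) : List (Fin n) := w.foldr lm x

theorem act_cons (a : Fin n) (w x : List (Fin n)) : act (a :: w) x = lm a (act w x) := rfl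

theorem act_append (v w x : List (Fin n)) : act (v ++ w) x = act v (act w x) := by
  unfold act
  rw [List.foldr_append]

theorem red_act (w : List (Fin n)) {x : List (Fin n)} (h : Red x) : Red (act w x) := by
  induction w with
  | nil => exact h
  | cons a w ih => exact red_lm a ih

theorem act_nil {w : List (Fin n)} (h : Red w) : act w [] = w := by
  induction w with
  | nil => rfl
  | cons a w ih =>
    rw [act_cons, ih (red_tail h), lm_of_ne a (head_ne h)]

theorem act_reverse (w : List (Fin n)) {x : List (Fin n)} (h : Red x) :
    act w (act w.reverse x) = x := by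
  induction w generalizing x with
  | nil => rfl
  | cons a w ih =>
    rw [List.reverse_cons, act_append, act_cons]
    have e : act [a] x = lm a x := rfl
    rw [e, ih (red_lm a h), lm_lm a h]

theorem act_reverse' (w : List (Fin n)) {x : List (Fin n)} (h : Red x) :
    act w.reverse (act w x) = x := by
  have := act_reverse w.reverse h
  rwa [List.reverse_reverse] at this

theorem act_lm (i : Fin n) (w : List (Fin n)) {x : List (Fin n)} (h : Red x) :
    act (lm i w) x = lm i (act w x) := by
  cases w with
  | nil => rfl
  | cons a w =>
    by_cases ha : a = i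
    · subst ha
      rw [lm_self, act_cons, lm_lm a (red_act w h)]
    · rw [lm_ne ha, act_cons]

theorem act_rm (j : Fin n) (w : List (Fin n)) {x : List (Fin n)} (h : Red x) :
    act w (rm j x) = rm j (act w x) := by
  induction w with
  | nil => rfl
  | cons a w ih => rw [act_cons, ih, lm_rm a j (red_act w h), act_cons]

/-- The direction. -/
def dr (c e : List (Fin n)) : Option (Fin n) := (act c.reverse e).head?

theorem head_rm (j : Fin n) {g : List (Fin n)} (h1 : g ≠ []) (h2 : rm j g ≠ []) :
    (rm j g).head? = g.head? := by
  rcases List.eq_nil_or_concat g with rfl | ⟨m, b, rfl⟩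
  · exact absurd rfl h1
  · rw [List.concat_eq_append] at *
    rw [rm_concat] at *
    split_ifs at * with hb
    · cases m with
      | nil => exact absurd rfl h2
      | cons a m => rfl
    · cases m with
      | nil => rfl
      | cons a m => rfl

theorem length_lm (i : Fin n) (l : List (Fin n)) :
    decide (Even (lm i l).length) = !decide (Even l.length) := by
  cases l with
  | nil => simp [lm]
  | cons a l =>
    by_cases ha : a = i
    · rw [lm_cons, if_pos ha, List.length_cons]
      by_cases h : Even l.length
      · simp [h, Nat.even_add_one]
      · simp [h, Nat.even_add_one]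
    · rw [lm_ne ha, List.length_cons, List.length_cons]
      by_cases h : Even l.length
      · simp [h, Nat.even_add_one]
      · simp [h, Nat.even_add_one]

/-- The vertices. -/
abbrev Vt (n : ℕ) : Type := {l : List (Fin n) // Red l}

theorem foldr_rm (l x : List (Fin n)) : l.foldr rm x = (act l x.reverse).reverse := by
  induction l with
  | nil => simp [act]
  | cons a l ih =>
    rw [List.foldr_cons, ih]
    unfold rm
    rw [List.reverse_reverse, act_cons]

theorem foldr_val (l : List (Fin n)) (x : Vt n) :
    (l.foldr (fun i (y : Vt n) => (⟨rm i y.1, red_rm i y.2⟩ : Vt n)) x).1 = l.foldr rm x.1 := by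
  induction l with
  | nil => rfl
  | cons a l ih =>
    rw [List.foldr_cons, List.foldr_cons, ← ih]

theorem pf_TRE : T_TRE := by
  intro n _
  refine ⟨{
    V := Vt n
    r := fun i c => ⟨rm i c.1, red_rm i c.2⟩
    rr := fun i c => Subtype.ext (rm_rm i c.2)
    par := fun c => decide (Even c.1.length)
    par_r := ?_
    o := ⟨[], red_nil⟩
    par_o := rfl
    conn := ?_
    hom := ?_
    dir := fun c e => dr c.1 e.1
    dir_none := ?_
    dir_r := ?_
    dir_step := ?_
    dir_base := ?_
    dir_base' := ?_ }⟩
  · intro i c
    show decide (Even (rm i c.1).length) = !decide (Even c.1.length)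
    unfold rm
    rw [List.length_reverse, length_lm, List.length_reverse]
  · intro c e
    refine ⟨e.1.reverse ++ c.1, Subtype.ext ?_⟩
    rw [foldr_val, foldr_rm, act_append]
    have h1 : act c.1 c.1.reverse = [] := by
      have h2 := act_reverse c.1 (red_nil (n := n))
      rwa [act_nil (red_reverse c.2)] at h2
    rw [h1, act_nil (red_reverse e.2), List.reverse_reverse]
  · intro c e
    refine ⟨fun x => ⟨act e.1 (act c.1.reverse x.1), red_act _ (red_act _ x.2)⟩, ?_, ?_⟩
    · intro i x
      refine Subtype.ext ?_
      show act e.1 (act c.1.reverse (rm i x.1)) = rm i (act e.1 (act c.1.reverse x.1))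
      rw [act_rm i _ x.2, act_rm i _ (red_act _ x.2)]
    · refine Subtype.ext ?_
      show act e.1 (act c.1.reverse c.1) = e.1
      have h1 : act c.1.reverse c.1 = [] := by
        have h2 := act_reverse' c.1 (red_nil (n := n))
        rwa [act_nil c.2] at h2
      rw [h1, act_nil e.2]
  · intro c e
    show (act c.1.reverse e.1).head? = none ↔ c = e
    rw [List.head?_eq_none_iff]
    constructor
    · intro h
      have h1 := act_reverse c.1 e.2
      rw [h, act_nil c.2] at h1
      exact Subtype.ext h1
    · rintro rfl
      have h2 := act_reverse' c.1 (red_nil (n := n))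
      rwa [act_nil c.2] at h2
  · intro i c
    show (act c.1.reverse (rm i c.1)).head? = some i
    have h1 : act c.1.reverse c.1 = [] := by
      have h2 := act_reverse' c.1 (red_nil (n := n))
      rwa [act_nil c.2] at h2
    rw [act_rm i _ c.2, h1]
    rfl
  · intro c e j h1 h2
    show (act c.1.reverse (rm j e.1)).head? = (act c.1.reverse e.1).head?
    have key : ∀ x : Vt n, x ≠ c → act c.1.reverse x.1 ≠ [] := by
      intro x hx h
      have h3 := act_reverse c.1 x.2
      rw [h, act_nil c.2] at h3
      exact hx (Subtype.ext h3.symm)
    have h3 := key e h1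
    have h4 := key ⟨rm j e.1, red_rm j e.2⟩ h2
    rw [act_rm j _ e.2]
    refine head_rm j h3 ?_
    have h5 : act c.1.reverse (rm j e.1) ≠ [] := h4
    rwa [act_rm j _ e.2] at h5
  · intro c e i h
    show (act (rm i c.1).reverse e.1).head? = some i
    unfold rm
    rw [List.reverse_reverse, act_lm i _ e.2, lm_of_ne i h]
    rfl
  · intro c e i h
    show (act (rm i c.1).reverse e.1).head? ≠ some i
    unfold rm
    rw [List.reverse_reverse, act_lm i _ e.2]
    have h0 : (act c.1.reverse e.1).head? = some i := h
    have hr : Red (act c.1.reverse e.1) := red_act _ e.2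
    cases hg : act c.1.reverse e.1 with
    | nil => rw [hg] at h0; simp at h0
    | cons a l =>
      rw [hg] at h0 hr
      have ha : a = i := by simpa using h0
      subst ha
      rw [lm_self]
      exact head_ne hr

end Pool.Agent.H96.BPQ
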